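import Pool.Agent.INC84.TLam

namespace Pool.Agent.Results.MP_143049_co.FlatHypersurfaces

/-- `Z` is a connected regular hypersurface: the zero set of a `C^1` function whose gradient does
not vanish on it. -/
def IsHyp {V : Type*} [NormedAddCommGroup V] [NormedSpace ℝ V] (Z : Set V) : Prop :=
  ∃ g : V → ℝ, ContDiff ℝ 1 g ∧ (∀ x, g x = 0 → fderiv ℝ g x ≠ 0) ∧ Z = {x | g x = 0} ∧
    IsConnected Z

/-- `S` is the image under `φ` of a union of at most `B` pairwise disjoint connected regular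
hypersurfaces. -/
def IsSurface {V X : Type*} [NormedAddCommGroup V] [NormedSpace ℝ V] (B : ℕ) (φ : V → X)
    (S : Set X) : Prop :=
  ∃ 𝒞 : Finset (Set V), 𝒞.card ≤ B ∧ (∀ Z ∈ 𝒞, IsHyp Z) ∧
    (∀ Z ∈ 𝒞, ∀ Z' ∈ 𝒞, Z ≠ Z' → Disjoint Z Z') ∧ S = φ '' (⋃ Z ∈ 𝒞, Z)

open Classical in
/-- The number of incidences. -/
noncomputable def incidences {X : Type*} (P : Finset X) (𝒮 : Finset (Set X)) : ℕ :=
  ((P ×ˢ 𝒮).filter fun x => x.1 ∈ x.2).card

/-- The conjectured bound, with constant `C`. -/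
def Bound {X : Type*} (d l k : ℕ) (C : ℝ) (P : Finset X) (𝒮 : Finset (Set X)) : Prop :=
  (incidences P 𝒮 : ℝ) ≤ C * ((P.card : ℝ) ^ ((k * l : ℝ) / (d * (k - 1) + l)) *
    (𝒮.card : ℝ) ^ ((d * (k - 1) : ℝ) / (d * (k - 1) + l)) + P.card + 𝒮.card)

theorem linear {V X : Type*} [NormedAddCommGroup V] [NormedSpace ℝ V] [FiniteDimensional ℝ V]
    (hdim : 3 ≤ Module.finrank ℝ V) (B C₀ : ℕ) (φ : V → X) (hφ : Function.Injective φ)
    (P : Finset X) (𝒮 : Finset (Set X)) (hS : ∀ S ∈ 𝒮, IsSurface B φ S)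
    (hfew : ∀ S ∈ 𝒮, ∀ S' ∈ 𝒮, S ≠ S' → (S ∩ S').encard ≤ C₀) :
    incidences P 𝒮 ≤ 2 * P.card + C₀ * B * 𝒮.card := by
  classical
  choose 𝒞 hcard hhyp hdisj hunion using fun S : 𝒮 => hS S.1 S.2
  let ι := (S : 𝒮) × (𝒞 S)
  choose g hg1 hg2 hg3 hg4 using fun i : ι => hhyp i.1 i.2.1 i.2.2
  have hmem : ∀ (i : ι) (x : V), g i x = 0 → φ x ∈ (i.1 : Set X) := by
    intro i x hx
    have h1 := hunion i.1
    rw [h1]
    refine ⟨x, ?_, rfl⟩
    rw [Set.mem_iUnion₂]
    refine ⟨i.2.1, i.2.2, ?_⟩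
    rw [hg3 i]
    exact hx
  have hT : Pool.Agent.INC84.THyp g C₀ := by
    refine ⟨hdim, hg1, hg2, ?_, ?_⟩
    · intro i
      rw [← hg3 i]
      exact hg4 i
    · intro i j hij
      by_cases hS : i.1 = j.1
      · -- same surface: disjoint
        obtain ⟨Si, Zi⟩ := i
        obtain ⟨Sj, Zj⟩ := j
        simp only at hS
        subst hS
        have hZ : (Zi : Set V) ≠ Zj := by
          intro h
          apply hij
          congr 1
          exact Subtype.ext h
        have h1 := hdisj Si Zi.1 Zi.2 Zj.1 Zj.2 hZ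
        rw [← hg3 ⟨Si, Zi⟩, ← hg3 ⟨Si, Zj⟩, h1.inter_eq]
        simp
      · have h1 : ((i.1 : Set X) ∩ (j.1 : Set X)).encard ≤ C₀ := by
          apply hfew _ i.1.2 _ j.1.2
          intro h
          exact hS (Subtype.ext h)
        refine le_trans ?_ h1
        rw [← hφ.encard_image]
        apply Set.encard_le_encard
        rintro _ ⟨x, ⟨hx1, hx2⟩, rfl⟩
        exact ⟨hmem i x hx1, hmem j x hx2⟩
  -- the points in the image of φ
  set P' : Finset V := P.preimage φ hφ.injOn with hP'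
  have hP'c : P'.card ≤ P.card := by
    apply Finset.card_le_card_of_injOn φ
    · intro p hp
      rw [Finset.mem_coe, hP', Finset.mem_preimage] at hp
      exact hp
    · exact hφ.injOn
  have hι : Fintype.card ι ≤ B * 𝒮.card := by
    rw [Fintype.card_sigma]
    calc ∑ S : 𝒮, Fintype.card (𝒞 S) ≤ ∑ S : 𝒮, B := by
          apply Finset.sum_le_sum
          intro S _
          rw [Fintype.card_coe]
          exact hcard S
      _ = B * 𝒮.card := by
          rw [Finset.sum_const, Finset.card_univ, Fintype.card_coe, smul_eq_mul, mul_comm]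
  have hinc : incidences P 𝒮 ≤ ∑ p ∈ P', (Finset.univ.filter fun i : ι => g i p = 0).card := by
    have h1 : incidences P 𝒮 = ∑ S ∈ 𝒮, (P.filter fun p => p ∈ S).card := by
      unfold incidences
      rw [Finset.card_filter, Finset.sum_product_right]
      simp only [Finset.card_filter]
    have h2 : ∑ p ∈ P', (Finset.univ.filter fun i : ι => g i p = 0).card
        = ∑ S : 𝒮, ∑ Z : 𝒞 S, (P'.filter fun p => g ⟨S, Z⟩ p = 0).card := by
      simp only [Finset.card_filter]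
      rw [Finset.sum_comm, Fintype.sum_sigma]
    rw [h1, h2, ← Finset.sum_coe_sort]
    apply Finset.sum_le_sum
    intro S _
    have h3 : (P.filter fun p => p ∈ (S : Set X))
        ⊆ Finset.univ.biUnion fun Z : 𝒞 S => (P'.filter fun p => g ⟨S, Z⟩ p = 0).image φ := by
      intro p hp
      rw [Finset.mem_filter] at hp
      have h4 := hp.2
      rw [hunion S] at h4
      obtain ⟨x, hx, rfl⟩ := h4
      rw [Set.mem_iUnion₂] at hx
      obtain ⟨Z, hZ, hxZ⟩ := hx
      rw [Finset.mem_biUnion]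
      refine ⟨⟨Z, hZ⟩, Finset.mem_univ _, ?_⟩
      rw [Finset.mem_image]
      refine ⟨x, ?_, rfl⟩
      rw [Finset.mem_filter, hP', Finset.mem_preimage]
      refine ⟨hp.1, ?_⟩
      have h5 := hg3 ⟨S, ⟨Z, hZ⟩⟩
      simp only at h5
      rw [h5] at hxZ
      exact hxZ
    refine (Finset.card_le_card h3).trans (Finset.card_biUnion_le.trans ?_)
    exact Finset.sum_le_sum fun Z _ => Finset.card_image_le
  calc incidences P 𝒮 ≤ ∑ p ∈ P', (Finset.univ.filter fun i : ι => g i p = 0).card := hinc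
    _ ≤ 2 * P'.card + C₀ * Fintype.card ι := by
        have := hT.bound' P'
        convert this
    _ ≤ 2 * P.card + C₀ * (B * 𝒮.card) := by gcongr
    _ = 2 * P.card + C₀ * B * 𝒮.card := by ring

/-- For `d = 2 l`, `l ≥ 2`: the incidences of points of `R^d` with surfaces of a common
`(l+1)`-dimensional affine subspace, each a union of at most `B` disjoint connected regular
hypersurfaces of it, any two with at most `C₀` common points, are at most
`2 |P| + C₀ B |𝒮|`; in particular the conjectured bound holds. -/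
theorem result (l B C₀ : ℕ) (hl : 2 ≤ l)
    (φ : EuclideanSpace ℝ (Fin (l + 1)) →ᵃ[ℝ] EuclideanSpace ℝ (Fin (2 * l)))
    (hφ : Function.Injective φ) (P : Finset (EuclideanSpace ℝ (Fin (2 * l))))
    (𝒮 : Finset (Set (EuclideanSpace ℝ (Fin (2 * l))))) (hS : ∀ S ∈ 𝒮, IsSurface B φ S)
    (hfew : ∀ S ∈ 𝒮, ∀ S' ∈ 𝒮, S ≠ S' → (S ∩ S').encard ≤ C₀) :
    incidences P 𝒮 ≤ 2 * P.card + C₀ * B * 𝒮.card ∧
    ∀ k, Bound (2 * l) l k (2 + C₀ * B) P 𝒮 := by
  have h1 := linear (by rw [finrank_euclideanSpace_fin]; omega) B C₀ φ hφ P 𝒮 hS hfew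
  refine ⟨h1, ?_⟩
  intro k
  unfold Bound
  have h2 : (incidences P 𝒮 : ℝ) ≤ 2 * P.card + C₀ * B * 𝒮.card := by exact_mod_cast h1
  have h3 : (0 : ℝ) ≤ (P.card : ℝ) ^ ((k * l : ℝ) / ((2 * l : ℕ) * (k - 1) + l)) *
    (𝒮.card : ℝ) ^ (((2 * l : ℕ) * (k - 1) : ℝ) / ((2 * l : ℕ) * (k - 1) + l)) := by positivity
  have h4 : (0 : ℝ) ≤ (C₀ : ℝ) * B := by positivity
  have h5 : (0 : ℝ) ≤ (P.card : ℝ) := Nat.cast_nonneg _
  have h6 : (0 : ℝ) ≤ (𝒮.card : ℝ) := Nat.cast_nonneg _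
  nlinarith [mul_nonneg h4 h5, mul_nonneg h4 h6, mul_nonneg h4 h3]

end Pool.Agent.Results.MP_143049_co.FlatHypersurfaces
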