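import Pool.Agent.INC84.Geo

namespace Pool.Agent.Results.MP_143049_co.OvaloidSections

/-- A nonempty open convex set without lines whose boundary contains no segment and has a unique
supporting hyperplane through each of its points. -/
structure Ovaloid {E : Type*} [NormedAddCommGroup E] [NormedSpace ℝ E] (U : Set E) : Prop where
  isOpen : IsOpen U
  nonempty : U.Nonempty
  convex : Convex ℝ U
  no_line : ∀ x v : E, v ≠ 0 → ∃ t : ℝ, x + t • v ∉ U
  strict : ∀ p ∈ frontier U, ∀ q ∈ frontier U, p ≠ q → midpoint ℝ p q ∈ U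
  smooth : ∀ p ∈ frontier U, ∀ f g : E →L[ℝ] ℝ, f ≠ 0 → g ≠ 0 → (∀ x ∈ U, f x ≤ f p) →
    (∀ x ∈ U, g x ≤ g p) → ∃ c : ℝ, g = c • f

/-- `S` is the image under `φ` of the section of the boundary of `U` by a hyperplane `f = b` which
meets `U`. -/
def IsSection {E X : Type*} [NormedAddCommGroup E] [NormedSpace ℝ E] (φ : E → X) (U : Set E)
    (S : Set X) : Prop :=
  ∃ f : E →L[ℝ] ℝ, ∃ b : ℝ, f ≠ 0 ∧ (∃ y ∈ U, f y = b) ∧ S = φ '' {x | x ∈ frontier U ∧ f x = b}

/-- `S` is the image under `φ` of a round sphere of positive radius or of a hyperplane. -/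
def IsSphereOrFlat {V X : Type*} [NormedAddCommGroup V] [InnerProductSpace ℝ V] (φ : V → X)
    (S : Set X) : Prop :=
  (∃ (c : V) (r : ℝ), 0 < r ∧ S = φ '' Metric.sphere c r) ∨
    ∃ (a : V) (b : ℝ), a ≠ 0 ∧ S = φ '' {x | inner ℝ a x = b}

/-- Any `m` distinct members of `𝒮` have at most `C₀` points in common. -/
def FewCommon {X : Type*} (m C₀ : ℕ) (𝒮 : Finset (Set X)) : Prop :=
  ∀ M ⊆ 𝒮, M.card = m → (⋂ S ∈ M, S).encard ≤ C₀

open Classical in
/-- The number of incidences. -/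
noncomputable def incidences {X : Type*} (P : Finset X) (𝒮 : Finset (Set X)) : ℕ :=
  ((P ×ˢ 𝒮).filter fun x => x.1 ∈ x.2).card

/-- The conjectured bound, with constant `C`. -/
def Bound {X : Type*} (d l k : ℕ) (C : ℝ) (P : Finset X) (𝒮 : Finset (Set X)) : Prop :=
  (incidences P 𝒮 : ℝ) ≤ C * ((P.card : ℝ) ^ ((k * l : ℝ) / (d * (k - 1) + l)) *
    (𝒮.card : ℝ) ^ ((d * (k - 1) : ℝ) / (d * (k - 1) + l)) + P.card + 𝒮.card)

lemma exps {d l k m : ℕ} (hl : 1 ≤ l) (hd : l + 2 ≤ d) (hm : m * (d - l) = d) (hk : m ≤ k) :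
    (k * l : ℝ) / (d * (k - 1) + l) = (k * (m - 1) : ℝ) / (m * k - 1) ∧
    (d * (k - 1) : ℝ) / (d * (k - 1) + l) = (m * (k - 1) : ℝ) / (m * k - 1) := by
  obtain ⟨c, hc⟩ : ∃ c, d - l = c := ⟨_, rfl⟩
  rw [hc] at hm
  have hc2 : 2 ≤ c := by omega
  have hdl : d = l + c := by omega
  have hm2 : 2 ≤ m := by
    by_contra h
    push Not at h
    have : m * c ≤ 1 * c := Nat.mul_le_mul_right _ (by omega)
    omega
  have hdr : (d : ℝ) = m * c := by exact_mod_cast hm.symm
  have hlr : (l : ℝ) = (m - 1) * c := by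
    have h1 : (d : ℝ) = l + c := by exact_mod_cast hdl
    linarith
  have hcr : (0 : ℝ) < c := by exact_mod_cast (by omega : 0 < c)
  have hmk : (0 : ℝ) < (m : ℝ) * k - 1 := by
    have : (2 : ℝ) ≤ (m : ℝ) * k := by
      exact_mod_cast (show 2 ≤ m * k by nlinarith)
    linarith
  have h1 : (d * (k - 1) + l : ℝ) = (m * k - 1) * c := by rw [hdr, hlr]; ring
  rw [h1, hlr, hdr]
  constructor
  · field_simp
  · field_simp

lemma finite_of_few {X : Type*} {m C₀ : ℕ} {𝒮 : Finset (Set X)} (h : FewCommon m C₀ 𝒮) :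
    ∀ M ⊆ 𝒮, M.card = m → (⋂ S ∈ M, S).Finite := by
  intro M hM hMc
  exact Set.finite_of_encard_le_coe (h M hM hMc)

/-- The conjectured incidence bound, for all `d, l, k, C₀` of codimension `d - l ≥ 2`, with a
constant depending only on `d` and `l`, for hyperplane sections of a smooth strictly convex
hypersurface of an `(l+2)`-dimensional affine subspace, and for round `l`-spheres and `l`-flats of
a common `(l+1)`-dimensional flat. -/
theorem result (d l : ℕ) (hl : 1 ≤ l) (hd : l + 2 ≤ d) (hdiv : (d - l) ∣ d) :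
    ∃ C : ℝ, ∀ k C₀ : ℕ, d / (d - l) ≤ k →
    (∀ (φ : EuclideanSpace ℝ (Fin (l + 2)) →ᵃ[ℝ] EuclideanSpace ℝ (Fin d))
      (U : Set (EuclideanSpace ℝ (Fin (l + 2)))) (P : Finset (EuclideanSpace ℝ (Fin d)))
      (𝒮 : Finset (Set (EuclideanSpace ℝ (Fin d)))), Function.Injective φ → Ovaloid U →
      (∀ S ∈ 𝒮, IsSection φ U S) → FewCommon (d / (d - l)) C₀ 𝒮 → Bound d l k C P 𝒮) ∧
    (∀ (φ : EuclideanSpace ℝ (Fin (l + 1)) →ᵃⁱ[ℝ] EuclideanSpace ℝ (Fin d))
      (P : Finset (EuclideanSpace ℝ (Fin d))) (𝒮 : Finset (Set (EuclideanSpace ℝ (Fin d)))),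
      (∀ S ∈ 𝒮, IsSphereOrFlat φ S) → FewCommon (d / (d - l)) C₀ 𝒮 → Bound d l k C P 𝒮) := by
  set m := d / (d - l) with hm
  have hmd : m * (d - l) = d := Nat.div_mul_cancel hdiv
  have hm2 : 2 ≤ m := by
    by_contra h
    push Not at h
    have : m * (d - l) ≤ 1 * (d - l) := Nat.mul_le_mul_right _ (by omega)
    omega
  have hml : m ≤ l := by
    obtain ⟨c, hc⟩ : ∃ c, d - l = c := ⟨_, rfl⟩
    rw [hc] at hmd
    have hc2 : 2 ≤ c := by omega
    have h1 : l = d - c := by omega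
    have h2 : d - c = (m - 1) * c := by
      rw [← hmd, Nat.sub_mul, one_mul]
    rw [h1, h2]
    calc m ≤ (m - 1) * 2 := by omega
      _ ≤ (m - 1) * c := by gcongr
  refine ⟨Pool.Agent.INC84.Cm m, ?_⟩
  intro k C₀ hk
  obtain ⟨e1, e2⟩ := exps hl hd hmd hk
  refine ⟨?_, ?_⟩
  · intro φ U P 𝒮 hφ hU hS hfew
    unfold Bound
    rw [e1, e2]
    have hO : Pool.Agent.INC84.Ovaloid U :=
      ⟨hU.isOpen, hU.nonempty, hU.convex, hU.no_line, hU.strict, hU.smooth⟩
    apply Pool.Agent.INC84.main hO.ov φ hφ.injOn hm2 hk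
    · rw [finrank_euclideanSpace_fin]; omega
    · intro S hSS
      obtain ⟨f, b, _, _, h2⟩ := hS S hSS
      exact ⟨f.toLinearMap, b, h2⟩
    · exact finite_of_few hfew
  · intro φ P 𝒮 hS hfew
    unfold Bound
    rw [e1, e2]
    apply Pool.Agent.INC84.main (Pool.Agent.INC84.par_ov (V := EuclideanSpace ℝ (Fin (l + 1))))
      (fun z => φ z.1) _ hm2 hk
    · rw [Module.finrank_prod, finrank_euclideanSpace_fin, Module.finrank_self]; omega
    · intro S hSS
      rcases hS S hSS with ⟨c, r, hr, h2⟩ | ⟨a, b, _, h2⟩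
      · refine ⟨LinearMap.snd ℝ _ ℝ - (2 : ℝ) • ((innerₗ _ c).comp (LinearMap.fst ℝ _ ℝ)),
          r ^ 2 - ‖c‖ ^ 2, ?_⟩
        rw [h2]
        have key : ∀ x : EuclideanSpace ℝ (Fin (l + 1)),
            x ∈ Metric.sphere c r ↔ ‖x‖ ^ 2 - 2 * inner ℝ c x = r ^ 2 - ‖c‖ ^ 2 := by
          intro x
          rw [mem_sphere_iff_norm, ← sq_eq_sq₀ (norm_nonneg _) hr.le, norm_sub_sq_real,
            real_inner_comm]
          constructor <;> intro h <;> linarith
        ext y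
        constructor
        · rintro ⟨x, hx, rfl⟩
          refine ⟨(x, ‖x‖ ^ 2), ⟨rfl, ?_⟩, rfl⟩
          rw [key] at hx
          simpa [innerₗ_apply_apply] using hx
        · rintro ⟨z, ⟨hz, hz'⟩, rfl⟩
          refine ⟨z.1, ?_, rfl⟩
          rw [key]
          simp only [Pool.Agent.INC84.parS, Set.mem_ofPred_eq] at hz
          rw [hz]
          simpa [innerₗ_apply_apply] using hz'
      · refine ⟨(innerₗ _ a).comp (LinearMap.fst ℝ _ ℝ), b, ?_⟩
        rw [h2]
        ext y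
        constructor
        · rintro ⟨x, hx, rfl⟩
          refine ⟨(x, ‖x‖ ^ 2), ⟨rfl, ?_⟩, rfl⟩
          simpa [innerₗ_apply_apply] using hx
        · rintro ⟨z, ⟨hz, hz'⟩, rfl⟩
          refine ⟨z.1, ?_, rfl⟩
          simpa [innerₗ_apply_apply] using hz'
    · exact finite_of_few hfew
    · intro z hz z' hz' h
      have h1 : z.1 = z'.1 := φ.injective h
      apply Prod.ext h1
      simp only [Pool.Agent.INC84.parS, Set.mem_ofPred_eq] at hz hz'
      rw [← hz, ← hz', h1]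

end Pool.Agent.Results.MP_143049_co.OvaloidSections
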